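import Pool.Agent.H51.KV.Gap

set_option autoImplicit false

/-!
# Prime divisors with `h¹ ≠ 0` are bounded by their multiplicities after the ninth

Let `X` be the blow-up of the plane at `s ≥ 4` generic points over a field of characteristic zero,
and let `C` be ANY prime divisor on `X` (no condition on `s`, on the degree or on the multiplicities)
with `h¹ (C) ≠ 0`. For a class let `T` and `S` be the sums of the numbers `m + 1` and of their squares
over the multiplicities `m ≥ 2` after the nine largest ones, and let `b` be the tenth largest one.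

1. `b ≥ 2`, `14 h¹ (C) < 21 T + 2 (b + 1) ^ 2`, and `h⁰ (C) ≤ T`, or
   `14 h⁰ (C) < 11 T + 14 + (b + 1) ^ 2`. So `h¹ (C)` and `h⁰ (C)` are bounded independently of the
   degree and of the nine largest multiplicities.
2. Finitely many quadratic transformations carry `C` to a prime divisor `C1` (on the blow-up at other
   generic points) with the same `h⁰` and `h¹`, whose class `(e; u)` is standard, whose degree and all
   of whose multiplicities are at most those of `C`, and which satisfies, with its own `T`, `S`, `b`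
   and `c = 3 e - u₁ - ⋯ - u₉`:
   `c ≥ 1`, `7 c < 4 T`, `3 (u₉ + 1) c < 2 S`, `e < 2 S`, (`χ ≤ T - c` or
   `14 χ < 7 (T - c) + 14 + g ^ 2`), (`h⁰ ≤ T` or `14 h⁰ < 7 (T + c) + 14 + g ^ 2`),
   and `14 h¹ < 21 T + 2 g ^ 2`, for every `g` such that every multiplicity `m ≥ 2` after the nine
   largest ones satisfies `m + 1 ≤ g` or `m' < m ≤ 2 m'` for another one `m' ≥ 2`, for instance
   `g = b + 1`, or `g = m + 1` for the smallest such `m` if they never drop by more than one half.

So for given multiplicities after the ninth there are only finitely many classes `(e; u)`.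
The proof is that of `MP_d3128a_ag`, `BoundedByTail`: a vanishing theorem of the type of Kawamata and
Viehweg for plane systems and the nefness criterion of the library.
-/

namespace Pool.Agent.Results.MP_0dccba_ag.PrimeBoundedByTail

open MvPolynomial Pool.Agent.TH167 Pool.Agent.TH167.SHDefs

/-- `h⁰` of the class `d H - ∑ w i E i`: the dimension of the space of the forms of degree `d` with
multiplicity at least `w i` at `P i`. -/
noncomputable def hZero {K : Type} [Field K] {s : ℕ} (P : Fin s → Fin 2 → K) (d : ℕ)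
    (w : Fin s → ℕ) : ℕ := Module.finrank K ↥(sys P d w)

/-- The Euler characteristic of the class `d H - ∑ w i E i`. -/
def chi {s : ℕ} (d : ℕ) (w : Fin s → ℕ) : ℤ :=
  ((d + 2).choose 2 : ℤ) - ∑ i, ((w i + 1).choose 2 : ℤ)

/-- `h¹` of the class `d H - ∑ w i E i`. -/
noncomputable def hOne {K : Type} [Field K] {s : ℕ} (P : Fin s → Fin 2 → K) (d : ℕ)
    (w : Fin s → ℕ) : ℤ := hZero P d w - chi d w

/-- The `(n + 1)`-th largest multiplicity: the least `b` such that at most `n` of the multiplicities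
are larger than `b`. -/
noncomputable def nth {s : ℕ} (n : ℕ) (w : Fin s → ℕ) : ℕ :=
  sInf {b : ℕ | (Finset.univ.filter fun i => b < w i).card ≤ n}

/-- The class `(d; w)` is standard. -/
def Standard {s : ℕ} (d : ℕ) (w : Fin s → ℕ) : Prop :=
  ∀ i j k : Fin s, i ≠ j → i ≠ k → j ≠ k → w i + w j + w k ≤ d

/-- `c`: three times the degree minus the sum of the nine largest multiplicities. -/
noncomputable def slack {s : ℕ} (d : ℕ) (w : Fin s → ℕ) : ℤ :=
  3 * (d : ℤ) - ∑ n ∈ Finset.range 9, (nth n w : ℤ)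

/-- The `n` such that the `(n + 1)`-th largest multiplicity comes after the ninth and is at least
two. -/
noncomputable def tail {s : ℕ} (w : Fin s → ℕ) : Finset ℕ :=
  (Finset.range s).filter fun n => 9 ≤ n ∧ 2 ≤ nth n w

/-- `T`: the sum of the multiplicities `≥ 2` after the ninth, each increased by one. -/
noncomputable def tailSum {s : ℕ} (w : Fin s → ℕ) : ℤ := ∑ n ∈ tail w, ((nth n w : ℤ) + 1)

/-- `S`: the sum of the squares of these numbers. -/
noncomputable def tailSquares {s : ℕ} (w : Fin s → ℕ) : ℤ :=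
  ∑ n ∈ tail w, ((nth n w : ℤ) + 1) ^ 2

/-- Every multiplicity `m` of the tail satisfies `m + 1 ≤ g`, or `m' < m ≤ 2 m'` for some
multiplicity `m'` of the tail. -/
def GapBound {s : ℕ} (w : Fin s → ℕ) (g : ℕ) : Prop :=
  ∀ n ∈ tail w, nth n w + 1 ≤ g ∨ ∃ k ∈ tail w, nth k w < nth n w ∧ nth n w ≤ 2 * nth k w

/-- The bounds for a standard class. -/
def Bounded {s : ℕ} (e : ℕ) (u : Fin s → ℕ) (h0 : ℕ) : Prop :=
  2 ≤ nth 9 u ∧
  (∀ g : ℕ, GapBound u g →
    (chi e u ≤ tailSum u - slack e u ∨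
      14 * chi e u < 7 * (tailSum u - slack e u) + 14 + (g : ℤ) ^ 2) ∧
    ((h0 : ℤ) ≤ tailSum u ∨
      14 * (h0 : ℤ) < 7 * (tailSum u + slack e u) + 14 + (g : ℤ) ^ 2) ∧
    14 * ((h0 : ℤ) - chi e u) < 21 * tailSum u + 2 * (g : ℤ) ^ 2) ∧
  1 ≤ slack e u ∧ 7 * slack e u < 4 * tailSum u ∧
  3 * ((nth 8 u : ℤ) + 1) * slack e u < 2 * tailSquares u ∧ (e : ℤ) < 2 * tailSquares u

open Pool.Agent.K4H28.SP Pool.Agent.H51 Pool.Agent.H51.KV

theorem chi_eq {s : ℕ} (d : ℕ) (w : Fin s → ℕ) : chi d w = SH.chi d w := rfl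

theorem hZero_eq {K : Type} [Field K] {s : ℕ} (P : Fin s → Fin 2 → K) (d : ℕ) (w : Fin s → ℕ) :
    hZero P d w = Module.finrank K ↥(W609.CR.VS (fun j => W609.CR.aff (P j)) w d) := by
  unfold hZero
  rw [SH.sys_eq]

theorem tail_sum (f : ℕ → ℤ) (hf : f 0 = 0) {s : ℕ} (w : Fin s → ℕ) :
    ∑ i ∈ Finset.Ico 9 s, f (up (nth i w)) = ∑ i ∈ tail w, f (nth i w + 1) := by
  have h1 : tail w = (Finset.Ico 9 s).filter fun i => 2 ≤ nth i w := by
    ext i
    simp only [tail, Finset.mem_filter, Finset.mem_range, Finset.mem_Ico]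
    tauto
  rw [h1, Finset.sum_filter]
  refine Finset.sum_congr rfl fun i _ => ?_
  unfold up
  split_ifs
  · rfl
  · exact hf

theorem tl_eq {s : ℕ} (w : Fin s → ℕ) : tl s (fun n => nth n w) = tailSum w := by
  unfold tl tailSum
  rw [tail_sum (fun x => (x : ℤ)) rfl]
  exact Finset.sum_congr rfl fun i _ => by push_cast; ring

theorem tq_eq {s : ℕ} (w : Fin s → ℕ) : tq s (fun n => nth n w) = tailSquares w := by
  unfold tq tailSquares
  rw [tail_sum (fun x => (x : ℤ) ^ 2) rfl]
  exact Finset.sum_congr rfl fun i _ => by push_cast; ring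

theorem cc_eq {s : ℕ} (d : ℕ) (w : Fin s → ℕ) : cc d (fun n => nth n w) = slack d w := rfl

/-- The bounds for the generic dimension. -/
theorem bounded_of {s e : ℕ} (hs : 3 ≤ s) {u : Fin s → ℕ} (hstd : Standard e u)
    (hne : 1 ≤ gd u e) (hsp : chi e u < gd u e) : Bounded e u (gd u e) := by
  obtain ⟨m, σ, hm, hw, hz⟩ := Pool.Agent.K4H51.PTM.exists_anti u
  have hnth : ∀ n, nth n u = m n := Pool.Agent.K4H51.PTM.nth_eq hm hw hz
  have hmn : m = fun n => nth n u := funext fun n => (hnth n).symm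
  have hgd := Pool.Agent.K4H51.PTM.gd_perm (d := e) hw
  have hchi : chi e u = SH.chi e (fun i : Fin s => m i) := by
    rw [chi_eq, SH.chi_cast, SH.chi_cast, Pool.Agent.K4H51.PTM.sum_perm hw]
  have hd : m 0 + m 1 + m 2 ≤ e := by
    have h1 := hw ⟨0, by omega⟩
    have h2 := hw ⟨1, by omega⟩
    have h3 := hw ⟨2, by omega⟩
    have h4 := hstd (σ ⟨0, by omega⟩) (σ ⟨1, by omega⟩) (σ ⟨2, by omega⟩)
      (fun h => absurd (σ.injective h) (by simp)) (fun h => absurd (σ.injective h) (by simp))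
      (fun h => absurd (σ.injective h) (by simp))
    rw [← h1, ← h2, ← h3] at h4
    exact h4
  have hsp' : 0 < Pool.Agent.K4H51.PTM.h1 e (fun i : Fin s => m i) := by
    unfold Pool.Agent.K4H51.PTM.h1
    rw [← hgd, ← hchi]
    linarith
  have hne' : 1 ≤ gd (fun i : Fin s => m i) e := by rw [← hgd]; exact hne
  have h1 := full hm hz hd hne' hsp'
  have h9 := h1.1
  have hs10 : 10 ≤ s := by
    by_contra hcon
    have := hz 9 (by omega)
    omega
  have h2 : ∀ g : ℕ, Gap s m g → _ := fun g hg =>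
    And.intro (chi_special2 hg hm hd hs10 h9 hne' hsp')
      (And.intro (dim_special2 hg hm hd hs10 h9 hne' hsp') (h1_bound2 hg hm hz hd hne' hsp'))
  unfold Pool.Agent.K4H51.PTM.h1 at h2
  simp only [← hgd, ← hchi] at h1 h2
  subst hmn
  rw [tl_eq, tq_eq, cc_eq] at h1
  simp only [tl_eq, cc_eq] at h2
  obtain ⟨a1, a2, a3, a4, a5, a6, a7⟩ := h1
  refine ⟨a1, fun g hg => h2 g ?_, a4, a5, a6, a7⟩
  intro i b1 b2 b3
  rcases hg i (Finset.mem_filter.2 ⟨Finset.mem_range.2 b2, b1, b3⟩) with b4 | ⟨j, hj, b4⟩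
  · exact Or.inl b4
  · obtain ⟨j1, j2, j3⟩ := Finset.mem_filter.1 hj
    exact Or.inr ⟨j, j2, Finset.mem_range.1 j1, j3, b4⟩

/-- The tenth multiplicity bounds the gaps. -/
theorem gapBound_nth {s : ℕ} (w : Fin s → ℕ) : GapBound w (nth 9 w + 1) := by
  intro n hn
  left
  have h1 := (Finset.mem_filter.1 hn).2.1
  have h2 : nth n w ≤ nth 9 w := by
    refine Nat.sInf_le ?_
    have h3 := Nat.sInf_mem (s := {b : ℕ | (Finset.univ.filter fun i => b < w i).card ≤ 9})
      ⟨∑ i, w i, by
        have h4 : (Finset.univ.filter fun i => ∑ i, w i < w i) = ∅ := by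
          refine Finset.filter_eq_empty_iff.2 fun i _ h5 => ?_
          have := Finset.single_le_sum (f := w) (fun i _ => Nat.zero_le _) (Finset.mem_univ i)
          omega
        show (Finset.univ.filter fun i => ∑ i, w i < w i).card ≤ 9
        rw [h4]
        simp⟩
    exact le_trans h3 h1
  omega

/-- **Main result.** -/
theorem result (K : Type) [Field K] [CharZero K] (s : ℕ) (hs : 4 ≤ s) (P : Fin s → Fin 2 → K)
    (hP : AlgebraicIndependent ℚ (fun ij : Fin s × Fin 2 => P ij.1 ij.2))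
    (d : ℕ) (w : Fin s → ℕ) (C : MvPolynomial (Fin 3) K) (hC : Curve P C d w) :
    hOne P d w = 0 ∨
      (0 < hOne P d w ∧ 2 ≤ nth 9 w ∧
        14 * hOne P d w < 21 * tailSum w + 2 * ((nth 9 w : ℤ) + 1) ^ 2 ∧
        ((hZero P d w : ℤ) ≤ tailSum w ∨
          14 * (hZero P d w : ℤ) < 11 * tailSum w + 14 + ((nth 9 w : ℤ) + 1) ^ 2) ∧
        ∃ (Q : Fin s → Fin 2 → K) (C1 : MvPolynomial (Fin 3) K) (e : ℕ) (u : Fin s → ℕ),
          AlgebraicIndependent ℚ (fun ij : Fin s × Fin 2 => Q ij.1 ij.2) ∧ Curve Q C1 e u ∧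
          Relation.ReflTransGen Quadratic (d, w) (e, u) ∧ Standard e u ∧
          e ≤ d ∧ (∀ i, u i ≤ w i) ∧
          hZero Q e u = hZero P d w ∧ hOne Q e u = hOne P d w ∧
          Bounded e u (hZero Q e u)) := by
  classical
  obtain ⟨r, rfl⟩ : ∃ r, s = r + 4 := ⟨s - 4, by omega⟩
  obtain ⟨h1, h2, h3⟩ := SH.curve_iff.1 hC
  have hge := SH.chi_le_dim P d w
  by_cases h0 : hOne P d w = 0
  · exact Or.inl h0
  right
  have hne : (hZero P d w : ℤ) ≠ chi d w := fun h => h0 (by unfold hOne; rw [h, sub_self])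
  have hpos1 : 0 < hOne P d w := by
    unfold hOne at h0 ⊢
    rw [hZero_eq, chi_eq] at h0 ⊢
    omega
  rcases Pool.Agent.K4H51.PTM.irr_red d P hP w C h1 h2 h3 with c1 | ⟨Q, e, u, C1, a1, a2, a3, a4,
    a5, a6, a7, a8, a9⟩
  · exact absurd (by rw [hZero_eq, chi_eq]; exact c1) hne
  · obtain ⟨q1, q2, q3⟩ := SH.quad_inv a5
    simp only at q1 q2 q3
    have hZ : hZero Q e u = hZero P d w := by rw [hZero_eq, hZero_eq, a9]
    have hX : chi e u = chi d w := by rw [chi_eq, chi_eq, q1]
    have hO : hOne Q e u = hOne P d w := by unfold hOne; rw [hZ, hX]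
    have hpos : 1 ≤ hZero P d w := by
      rw [hZero_eq]
      have hfin := W609.CR.vs_fin (fun j => W609.CR.aff (P j)) w d
      have hmem : C ∈ W609.CR.VS (fun j => W609.CR.aff (P j)) w d :=
        (SH.mem_VS _ _ _ _).2 ⟨h2, fun j => (h3 j).1⟩
      exact Module.finrank_pos_iff.2 ⟨⟨C, hmem⟩, 0, fun h7 => h1.ne_zero (congrArg Subtype.val h7)⟩
    have hg : hZero Q e u = gd u e := by
      rw [hZero_eq]
      exact Pool.Agent.K4H51.PTM.vs_gd a1 u e
    have hB : Bounded e u (hZero Q e u) := by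
      rw [hg]
      refine bounded_of (by omega) a6 (by rw [← hg, hZ]; exact hpos) ?_
      have h4 := hpos1
      rw [← hO] at h4
      unfold hOne at h4
      rw [hg] at h4
      linarith
    have hnm : ∀ n, nth n u ≤ nth n w := fun n => Pool.Agent.K4H51.PTM.nth_mono n a8
    have hTm : tailSum u ≤ tailSum w := by
      rw [← tl_eq, ← tl_eq]
      exact tl_mono hnm
    have hb : ((nth 9 u : ℤ) + 1) ^ 2 ≤ ((nth 9 w : ℤ) + 1) ^ 2 := by
      have h4 : (nth 9 u : ℤ) ≤ nth 9 w := by exact_mod_cast hnm 9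
      exact pow_le_pow_left₀ (by positivity) (by linarith) 2
    refine ⟨hpos1, le_trans hB.1 (hnm 9), ?_, ?_, Q, C1, e, u, a1,
      SH.curve_iff.2 ⟨a2, a3, a4⟩, SH.chain_conv a5, a6, a7, a8, hZ, hO, hB⟩
    · have h4 := (hB.2.1 _ (gapBound_nth u)).2.2
      push_cast at h4
      rw [← hO]
      unfold hOne
      linarith
    obtain ⟨-, k0, -, k2, -, -⟩ := hB
    have k1 := (k0 _ (gapBound_nth u)).2.1
    push_cast at k1
    rw [← hZ]
    rcases k1 with k1 | k1
    · exact Or.inl (by linarith)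
    · exact Or.inr (by linarith)

end Pool.Agent.Results.MP_0dccba_ag.PrimeBoundedByTail
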