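import Pool.Agent.H16.PN.Crit

/-!
# Prime divisors: `h⁰ + h¹` is bounded in terms of `d - m₁` and the tenth multiplicity

Let `X` be the blow-up of the plane at `s ≥ 4` generic points over a field of characteristic zero,
let `C` be ANY prime divisor on `X`, of class `(d; w)`, and let `F p = H - E p` be the class of the
lines through the point `p`.

1. Let `p` be one of the points and let `b` be a bound for the multiplicities of `C` at the others,
   `w p + b ≤ d + 1`. Then `h¹ (C) = 0`, or `b ≥ 2` and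

     `2 (h⁰ (C) + h¹ (C)) ≤ (b - 1) (2 (d - w p) - b) + 2`,

   and `h¹ (C + j F p) = 0` for all `j ≥ b - 1`.
2. If `h¹ (C) ≠ 0` then finitely many quadratic transformations carry `C` to a prime divisor `C1` (on
   the blow-up at other generic points) with the same `h⁰` and `h¹`, whose class `(e; u)` is
   standard, whose degree and all of whose multiplicities are at most those of `C`, and such that

     `2 (h⁰ + h¹) ≤ (b - 1) (2 (e - A) - b) + 2`, `b ≥ 2`

   for its largest multiplicity `A` and its TENTH largest multiplicity `b`; `h¹ (C1 + j F p) = 0`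
   for `j ≥ b - 1` and the points `p` of multiplicity `A`; and `|C1 - ∑ k i F i|` is empty for all
   `k i ≥ 0` with `∑ k i ≥ b - 1`. The first two assertions also hold for any `p` with `A = u p`
   and any `b` with `u p + b ≤ e + 1` which bounds the multiplicities of `C1` outside of a set of
   points which contains `p` and has multiplicity sum `≤ 3 e`.

So for fixed `e - A` and fixed other multiplicities there are only finitely many possibilities for
`h⁰` and `h¹`, whatever `A` is. The proof is that of `MP_d3128a_ag`, `PencilWindow`.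
-/

set_option autoImplicit false

namespace Pool.Agent.Results.MP_0dccba_ag.PrimePencilWindow

open MvPolynomial Pool.Agent.TH167 Pool.Agent.TH167.SHDefs

/-- `h⁰` of the class `d H - ∑ w i E i`: the dimension of the space of the forms of degree `d` with
multiplicity at least `w i` at `P i`. -/
noncomputable def hZero {K : Type} [Field K] {s : ℕ} (P : Fin s → Fin 2 → K) (d : ℕ)
    (w : Fin s → ℕ) : ℕ := Module.finrank K ↥(sys P d w)

/-- The Euler characteristic of the class `d H - ∑ w i E i`. -/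
def chi {s : ℕ} (d : ℕ) (w : Fin s → ℕ) : ℤ :=
  ((d + 2).choose 2 : ℤ) - ∑ i, ((w i + 1).choose 2 : ℤ)

/-- `h¹` of the class `d H - ∑ w i E i`. -/
noncomputable def hOne {K : Type} [Field K] {s : ℕ} (P : Fin s → Fin 2 → K) (d : ℕ)
    (w : Fin s → ℕ) : ℤ := hZero P d w - chi d w

/-- The `(n + 1)`-th largest multiplicity: the least `b` such that at most `n` of the multiplicities
are larger than `b`. -/
noncomputable def nth {s : ℕ} (n : ℕ) (w : Fin s → ℕ) : ℕ :=
  sInf {b : ℕ | (Finset.univ.filter fun i => b < w i).card ≤ n}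

/-- The class `(d; w)` is standard. -/
def Standard {s : ℕ} (d : ℕ) (w : Fin s → ℕ) : Prop :=
  ∀ i j k : Fin s, i ≠ j → i ≠ k → j ≠ k → w i + w j + w k ≤ d

/-- The multiplicities of `C + j (H - E p)`, where `w` are those of `C`. -/
def shift {s : ℕ} (w : Fin s → ℕ) (p : Fin s) (j : ℕ) : Fin s → ℕ :=
  Function.update w p (w p + j)

/-- The bound for `h⁰ + h¹` in terms of `e = d - w p` and of a bound `b` for the other
multiplicities. -/
def Pencil (h0 : ℕ) (h1 e : ℤ) (b : ℕ) : Prop :=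
  2 ≤ b ∧ 2 * ((h0 : ℤ) + h1) ≤ ((b : ℤ) - 1) * (2 * e - b) + 2

open Pool.Agent.K4H28.SP

theorem chi_eq {s : ℕ} (d : ℕ) (w : Fin s → ℕ) : chi d w = SH.chi d w := rfl

theorem hZero_eq {K : Type} [Field K] {s : ℕ} (P : Fin s → Fin 2 → K) (d : ℕ) (w : Fin s → ℕ) :
    hZero P d w = Module.finrank K ↥(W609.CR.VS (fun j => W609.CR.aff (P j)) w d) := by
  unfold hZero
  rw [SH.sys_eq]

theorem hZero_gd {K : Type} [Field K] [CharZero K] {s : ℕ} {P : Fin s → Fin 2 → K}
    (hP : AlgebraicIndependent ℚ (fun ij : Fin s × Fin 2 => P ij.1 ij.2)) (d : ℕ)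
    (w : Fin s → ℕ) : hZero P d w = gd w d := by
  rw [hZero_eq]
  exact Pool.Agent.K4H51.PTM.vs_gd hP w d

theorem hOne_gd {K : Type} [Field K] [CharZero K] {s : ℕ} {P : Fin s → Fin 2 → K}
    (hP : AlgebraicIndependent ℚ (fun ij : Fin s × Fin 2 => P ij.1 ij.2)) (d : ℕ)
    (w : Fin s → ℕ) : hOne P d w = gd w d - SH.chi d w := by
  unfold hOne
  rw [hZero_gd hP, chi_eq]

theorem hZero_pos {K : Type} [Field K] {s : ℕ} {P : Fin s → Fin 2 → K} {d : ℕ} {w : Fin s → ℕ}
    {C : MvPolynomial (Fin 3) K} (hC : Curve P C d w) : 1 ≤ hZero P d w := by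
  obtain ⟨h1, h2, h3⟩ := SH.curve_iff.1 hC
  rw [hZero_eq]
  have hfin := W609.CR.vs_fin (fun j => W609.CR.aff (P j)) w d
  have hmem : C ∈ W609.CR.VS (fun j => W609.CR.aff (P j)) w d :=
    (SH.mem_VS _ _ _ _).2 ⟨h2, fun j => (h3 j).1⟩
  exact Module.finrank_pos_iff.2 ⟨⟨C, hmem⟩, 0, fun h7 => h1.ne_zero (congrArg Subtype.val h7)⟩

/-- The results for generic dimensions in terms of `hZero` and `hOne`. -/
theorem transfer {K : Type} [Field K] [CharZero K] {s : ℕ} {P : Fin s → Fin 2 → K}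
    (hP : AlgebraicIndependent ℚ (fun ij : Fin s × Fin 2 => P ij.1 ij.2)) {d : ℕ}
    {w : Fin s → ℕ} {p : Fin s} {b : ℕ}
    (h : ((gd w d : ℤ) ≠ SH.chi d w → H16.PN.Pencil (gd w d) (gd w d - SH.chi d w) (d - w p) b) ∧
      ∀ j, b ≤ j + 1 → (gd (H16.PN.shift w p j) (d + j) : ℤ) =
        SH.chi (d + j) (H16.PN.shift w p j)) :
    (hOne P d w ≠ 0 → Pencil (hZero P d w) (hOne P d w) (d - w p) b) ∧
      ∀ j, b ≤ j + 1 → hOne P (d + j) (shift w p j) = 0 := by
  constructor
  · intro h0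
    have h1 := h.1 fun h2 => h0 (by rw [hOne_gd hP, h2, sub_self])
    rw [hOne_gd hP, hZero_gd hP]
    exact h1
  · intro j hj
    rw [hOne_gd hP]
    have h1 := h.2 j hj
    unfold shift
    unfold H16.PN.shift at h1
    rw [h1, sub_self]

/-- **Main result.** -/
theorem result (K : Type) [Field K] [CharZero K] (s : ℕ) (hs : 4 ≤ s) (P : Fin s → Fin 2 → K)
    (hP : AlgebraicIndependent ℚ (fun ij : Fin s × Fin 2 => P ij.1 ij.2))
    (d : ℕ) (w : Fin s → ℕ) (C : MvPolynomial (Fin 3) K) (hC : Curve P C d w) :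
    (∀ (p : Fin s) (b : ℕ), (∀ i, i ≠ p → w i ≤ b) → w p + b ≤ d + 1 →
      (hOne P d w ≠ 0 → Pencil (hZero P d w) (hOne P d w) (d - w p) b) ∧
        ∀ j, b ≤ j + 1 → hOne P (d + j) (shift w p j) = 0) ∧
    (hOne P d w = 0 ∨
      (0 < hOne P d w ∧
        ∃ (Q : Fin s → Fin 2 → K) (C1 : MvPolynomial (Fin 3) K) (e : ℕ) (u : Fin s → ℕ),
          AlgebraicIndependent ℚ (fun ij : Fin s × Fin 2 => Q ij.1 ij.2) ∧ Curve Q C1 e u ∧
          Relation.ReflTransGen Quadratic (d, w) (e, u) ∧ Standard e u ∧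
          e ≤ d ∧ (∀ i, u i ≤ w i) ∧
          hZero Q e u = hZero P d w ∧ hOne Q e u = hOne P d w ∧
          Pencil (hZero Q e u) (hOne Q e u) (e - nth 0 u) (nth 9 u) ∧
          (∀ p, u p = nth 0 u → ∀ j, nth 9 u ≤ j + 1 → hOne Q (e + j) (shift u p j) = 0) ∧
          (∀ k : Fin s → ℕ, nth 9 u ≤ ∑ i, k i + 1 → ∑ i, k i ≤ e →
            hZero Q (e - ∑ i, k i) (fun i => u i - k i) = 0) ∧
          ∀ (T : Finset (Fin s)) (p : Fin s) (b : ℕ), p ∈ T → ∑ i ∈ T, u i ≤ 3 * e →
            (∀ i, i ∉ T → u i ≤ b) → u p + b ≤ e + 1 →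
            Pencil (hZero Q e u) (hOne Q e u) (e - u p) b ∧
              ∀ j, b ≤ j + 1 → hOne Q (e + j) (shift u p j) = 0)) := by
  classical
  obtain ⟨r, rfl⟩ : ∃ r, s = r + 4 := ⟨s - 4, by omega⟩
  obtain ⟨h1, h2, h3⟩ := SH.curve_iff.1 hC
  refine ⟨fun p b hb hbd => ?_, ?_⟩
  · exact transfer hP (H16.PN.one hb hbd (SH.van_le h1.ne_zero h2 (h3 p).1)
      (by rw [← hZero_gd hP]; exact hZero_pos hC))
  have hge := SH.chi_le_dim P d w
  by_cases h0 : hOne P d w = 0
  · exact Or.inl h0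
  right
  have hne : (hZero P d w : ℤ) ≠ chi d w := fun h => h0 (by unfold hOne; rw [h, sub_self])
  have hpos1 : 0 < hOne P d w := by
    unfold hOne at h0 ⊢
    rw [hZero_eq, chi_eq] at h0 ⊢
    omega
  rcases Pool.Agent.K4H51.PTM.irr_red d P hP w C h1 h2 h3 with c1 | ⟨Q, e, u, C1, a1, a2, a3, a4,
    a5, a6, a7, a8, a9⟩
  · exact absurd (by rw [hZero_eq, chi_eq]; exact c1) hne
  · obtain ⟨q1, q2, q3⟩ := SH.quad_inv a5
    simp only at q1 q2 q3
    have hZ : hZero Q e u = hZero P d w := by rw [hZero_eq, hZero_eq, a9]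
    have hX : chi e u = chi d w := by rw [chi_eq, chi_eq, q1]
    have hO : hOne Q e u = hOne P d w := by unfold hOne; rw [hZ, hX]
    have hg : hZero Q e u = gd u e := hZero_gd a1 e u
    have hpos : 1 ≤ gd u e := by rw [← hg, hZ]; exact hZero_pos hC
    have hO0 : hOne Q e u ≠ 0 := by rw [hO]; exact h0
    have ht : ∀ p, u p = nth 0 u →
        (hOne Q e u ≠ 0 → Pencil (hZero Q e u) (hOne Q e u) (e - u p) (nth 9 u)) ∧
          ∀ j, nth 9 u ≤ j + 1 → hOne Q (e + j) (shift u p j) = 0 := fun p hp =>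
      transfer a1 (H16.PN.tenth (by omega) a6 (p := p) (fun i => by
        rw [hp]
        exact Pool.Agent.K4H51.PTM.le_nth_zero u i) hpos)
    obtain ⟨i₀, hi₀, -⟩ := Pool.Agent.K4H51.PTM.exists_max (show 0 < r + 4 by omega) u
    refine ⟨hpos1, Q, C1, e, u, a1, SH.curve_iff.2 ⟨a2, a3, a4⟩, SH.chain_conv a5, a6, a7, a8,
      hZ, hO, ?_, fun p hp => (ht p hp).2, fun k hk hke => ?_, fun T p b hp hT hb hbd => ?_⟩
    · have h5 := (ht i₀ hi₀).1 hO0
      rw [hi₀] at h5
      exact h5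
    · rw [hZero_gd a1]
      by_contra hcon
      apply hO0
      rw [hOne_gd a1, H16.PN.crit (by omega) a6 hk hke (Nat.one_le_iff_ne_zero.2 hcon), sub_self]
    · have h5 := transfer a1 (H16.PN.standard (by omega) a6 hp hT hb hbd hpos)
      exact ⟨h5.1 hO0, h5.2⟩

end Pool.Agent.Results.MP_0dccba_ag.PrimePencilWindow
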