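import Pool.Graph.R_pool_sql_team_seeded_c8625f6e.K4H51.PTM.Main
import Pool.Agent.H51.SB.Gd

set_option autoImplicit false

/-!
# Prime divisors: `h¹` is at most of the order `m₁ m₁₀ log m₁₀`

Let `X` be the blow-up of the plane at `s ≥ 4` generic points over a field of characteristic zero,
and let `C` be a prime divisor on `X` of degree `d`, with the multiplicities `m₁ ≥ m₂ ≥ ⋯`. There is
no condition on `s`, on `d` or on the multiplicities. Put `A = m₁` and `b = m₁₀`. Then `h¹ (C) = 0`, or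
`b ≥ 2` and

  `h⁰ ≤ (A - 1) (b - 1)`, `2 h¹ + (b - 1) h⁰ ≤ (b - 1) (A (b - 1) + 1)`,
  `h¹ ≤ (b - 1) (A + b) (1 + log⁺ ((b - 1) / 2))`.

Moreover, if `h¹ (C) ≠ 0`, finitely many quadratic transformations carry `C` to a prime divisor `C1`
(on the blow-up at other generic points) with the same `h⁰` and `h¹`, whose class `(e; u)` is
standard, whose degree and all of whose multiplicities are at most those of `C`, and which satisfies
these inequalities, and the sharper one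
`h¹ + Φ (h⁰) ≤ b (b - 1) / 2 + Φ ((A - 1) (b - 1))` for `X = 2 A + b - 1`, `Φ (x) = (b - 1) x / 2`
for `x ≤ X`, `Φ (x) = (b - 1) X (1 + log (x / X)) / 2` for `x ≥ X`, with its own largest multiplicity
`A = u₁` and any upper bound `b ≤ A` of its multiplicities outside of a set with sum at most `3 e`.
The proof is that of `MP_d3128a_ag`, `TenthSuperabundance`.
-/

namespace Pool.Agent.Results.MP_0dccba_ag.PrimeTenthSuperabundance

open MvPolynomial Pool.Agent.TH167 Pool.Agent.TH167.SHDefs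

/-- `h⁰` of the class `d H - ∑ w i E i`: the dimension of the space of the forms of degree `d` with
multiplicity at least `w i` at `P i`. -/
noncomputable def hZero {K : Type} [Field K] {s : ℕ} (P : Fin s → Fin 2 → K) (d : ℕ)
    (w : Fin s → ℕ) : ℕ := Module.finrank K ↥(sys P d w)

/-- The Euler characteristic of the class `d H - ∑ w i E i`. -/
def chi {s : ℕ} (d : ℕ) (w : Fin s → ℕ) : ℤ :=
  ((d + 2).choose 2 : ℤ) - ∑ i, ((w i + 1).choose 2 : ℤ)

/-- `h¹` of the class `d H - ∑ w i E i`. -/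
noncomputable def hOne {K : Type} [Field K] {s : ℕ} (P : Fin s → Fin 2 → K) (d : ℕ)
    (w : Fin s → ℕ) : ℤ := hZero P d w - chi d w

/-- The `(n + 1)`-th largest multiplicity: the least `b` such that at most `n` of the multiplicities
are larger than `b`. -/
noncomputable def nth {s : ℕ} (n : ℕ) (w : Fin s → ℕ) : ℕ :=
  sInf {b : ℕ | (Finset.univ.filter fun i => b < w i).card ≤ n}

/-- The class `(d; w)` is standard. -/
def Standard {s : ℕ} (d : ℕ) (w : Fin s → ℕ) : Prop :=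
  ∀ i j k : Fin s, i ≠ j → i ≠ k → j ≠ k → w i + w j + w k ≤ d

/-- The function `Φ`: linear up to `2 A + b - 1`, logarithmic from there on. -/
noncomputable def potential (A b : ℕ) (x : ℝ) : ℝ :=
  if x ≤ 2 * A + (b - 1) then (b - 1) * x / 2
  else (b - 1) * (2 * A + (b - 1)) / 2 * (1 + Real.log (x / (2 * A + (b - 1))))

/-- The bound `(b - 1) (A + b) (1 + log⁺ ((b - 1) / 2))`. -/
noncomputable def bound (A b : ℕ) : ℝ :=
  ((b : ℝ) - 1) * (A + b) * (1 + max 0 (Real.log (((b : ℝ) - 1) / 2)))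

/-- The bounds for `h⁰` and `h¹`. -/
def Small (h0 : ℕ) (h1 : ℤ) (A b : ℕ) : Prop :=
  2 ≤ b ∧ h0 ≤ (A - 1) * (b - 1) ∧
    2 * h1 + ((b : ℤ) - 1) * h0 ≤ ((b : ℤ) - 1) * ((A : ℤ) * ((b : ℤ) - 1) + 1) ∧
    (h1 : ℝ) ≤ bound A b

/-- The bound which involves the logarithm of `h⁰`. -/
def Trade (h0 : ℕ) (h1 : ℤ) (A b : ℕ) : Prop :=
  (h1 : ℝ) + potential A b h0 ≤
    (b : ℝ) * (b - 1) / 2 + potential A b (((A : ℝ) - 1) * ((b : ℝ) - 1))

open Pool.Agent.K4H28.SP Pool.Agent.H51.SB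

theorem chi_eq {s : ℕ} (d : ℕ) (w : Fin s → ℕ) : chi d w = SH.chi d w := rfl

theorem hZero_eq {K : Type} [Field K] {s : ℕ} (P : Fin s → Fin 2 → K) (d : ℕ) (w : Fin s → ℕ) :
    hZero P d w = Module.finrank K ↥(W609.CR.VS (fun j => W609.CR.aff (P j)) w d) := by
  unfold hZero
  rw [SH.sys_eq]

theorem pot_eq {A b : ℕ} (hb : 1 ≤ b) (x : ℝ) :
    pot ((b - 1 : ℕ) : ℝ) ((2 * A + (b - 1) : ℕ) : ℝ) x = potential A b x := by
  unfold pot potential
  push_cast [Nat.cast_sub hb]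
  rfl

/-- The bounds for natural numbers. -/
theorem of_TB {x y A b : ℕ} (h : TB A b x y) (hy : y ≠ 0) (hbA : b ≤ A) :
    Small x (y : ℤ) A b ∧ Trade x (y : ℤ) A b := by
  have hcl := h.closed hbA hy
  rcases h with h2 | ⟨h2, h3, h4, h5⟩
  · exact absurd h2 hy
  rw [pot_eq (by omega), pot_eq (by omega)] at h5
  obtain ⟨c, rfl⟩ : ∃ c, b = c + 1 := ⟨b - 1, by omega⟩
  obtain ⟨B, rfl⟩ : ∃ B, A = B + 1 := ⟨A - 1, by omega⟩
  simp only [Nat.add_sub_cancel] at h3 h4 h5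
  have e4 : ((c + 1 : ℕ) : ℤ) - 1 = (c : ℤ) := by push_cast; ring
  have e5 : ((B + 1 : ℕ) : ℝ) - 1 = (B : ℝ) := by push_cast; ring
  have e6 : ((c + 1 : ℕ) : ℝ) - 1 = (c : ℝ) := by push_cast; ring
  refine ⟨⟨h2, ?_, ?_, ?_⟩, ?_⟩
  · simp only [Nat.add_sub_cancel]
    exact h3
  · rw [e4]
    exact_mod_cast h4
  · rw [Int.cast_natCast]
    exact hcl
  · unfold Trade
    rw [e5, e6, Int.cast_natCast]
    push_cast at h5 ⊢
    exact h5

theorem bound_mono {A A' b b' : ℕ} (hb : 1 ≤ b) (hA : A ≤ A') (hbb : b ≤ b') :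
    bound A b ≤ bound A' b' := by
  unfold bound
  have h1 : (1 : ℝ) ≤ (b : ℝ) := by exact_mod_cast hb
  have h2 : (A : ℝ) ≤ (A' : ℝ) := by exact_mod_cast hA
  have h3 : (b : ℝ) ≤ (b' : ℝ) := by exact_mod_cast hbb
  have h0 : (0 : ℝ) ≤ (A : ℝ) := Nat.cast_nonneg A
  have h4 : max 0 (Real.log (((b : ℝ) - 1) / 2)) ≤ max 0 (Real.log (((b' : ℝ) - 1) / 2)) := by
    rcases h1.lt_or_eq with h | h
    · refine max_le_max le_rfl (Real.log_le_log (by linarith) (by linarith))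
    · rw [← h]
      have : ((1 : ℝ) - 1) / 2 = 0 := by norm_num
      rw [this, Real.log_zero, max_self]
      exact le_max_left _ _
  have h5 : (0 : ℝ) ≤ max 0 (Real.log (((b : ℝ) - 1) / 2)) := le_max_left _ _
  have h6 : ((b : ℝ) - 1) * (A + b) ≤ ((b' : ℝ) - 1) * (A' + b') :=
    mul_le_mul (by linarith) (by linarith) (by linarith) (by linarith)
  exact mul_le_mul h6 (by linarith) (by linarith)
    (mul_nonneg (by linarith) (by linarith))

theorem Small.mono {h0 : ℕ} {h1 : ℤ} {A A' b b' : ℕ} (h : Small h0 h1 A b) (hA : A ≤ A')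
    (hbb : b ≤ b') : Small h0 h1 A' b' := by
  obtain ⟨k0, k1, k2, k3⟩ := h
  refine ⟨by omega, k1.trans (Nat.mul_le_mul (by omega) (by omega)), ?_,
    k3.trans (bound_mono (by omega) hA hbb)⟩
  obtain ⟨c, rfl⟩ : ∃ c, b = c + 2 := ⟨b - 2, by omega⟩
  obtain ⟨r, rfl⟩ : ∃ r, b' = c + 2 + r := ⟨b' - (c + 2), by omega⟩
  obtain ⟨t, rfl⟩ : ∃ t, A' = A + t := ⟨A' - A, by omega⟩
  have e1 : c + 2 - 1 = c + 1 := rfl
  rw [e1] at k1
  have k4 : (h0 : ℤ) ≤ (A : ℤ) * (c + 1) := by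
    have : h0 ≤ A * (c + 1) := k1.trans (Nat.mul_le_mul_right _ (by omega))
    exact_mod_cast this
  push_cast at k2 ⊢
  have hc : (0 : ℤ) ≤ c := Int.natCast_nonneg c
  have hr : (0 : ℤ) ≤ r := Int.natCast_nonneg r
  have ht : (0 : ℤ) ≤ t := Int.natCast_nonneg t
  have hA0 : (0 : ℤ) ≤ A := Int.natCast_nonneg A
  have m1 : 0 ≤ (r : ℤ) * ((A : ℤ) * (c + 1) - h0) := mul_nonneg hr (by linarith)
  have m2 : 0 ≤ (A : ℤ) * r * (c + 1 + r) := by positivity
  have m3 : 0 ≤ (t : ℤ) * (c + 1 + r) * (c + 1 + r) := by positivity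
  nlinarith

/-- **Main result.** -/
theorem result (K : Type) [Field K] [CharZero K] (s : ℕ) (hs : 4 ≤ s) (P : Fin s → Fin 2 → K)
    (hP : AlgebraicIndependent ℚ (fun ij : Fin s × Fin 2 => P ij.1 ij.2))
    (d : ℕ) (w : Fin s → ℕ) (C : MvPolynomial (Fin 3) K) (hC : Curve P C d w) :
    hOne P d w = 0 ∨
      (0 < hOne P d w ∧ Small (hZero P d w) (hOne P d w) (nth 0 w) (nth 9 w) ∧
        ∃ (Q : Fin s → Fin 2 → K) (C1 : MvPolynomial (Fin 3) K) (e : ℕ) (u : Fin s → ℕ),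
          AlgebraicIndependent ℚ (fun ij : Fin s × Fin 2 => Q ij.1 ij.2) ∧ Curve Q C1 e u ∧
          Relation.ReflTransGen Quadratic (d, w) (e, u) ∧ Standard e u ∧
          e ≤ d ∧ (∀ i, u i ≤ w i) ∧
          hZero Q e u = hZero P d w ∧ hOne Q e u = hOne P d w ∧
          Small (hZero Q e u) (hOne Q e u) (nth 0 u) (nth 9 u) ∧
          Trade (hZero Q e u) (hOne Q e u) (nth 0 u) (nth 9 u) ∧
          ∀ (T : Finset (Fin s)) (b : ℕ), ∑ i ∈ T, u i ≤ 3 * e → (∀ i, i ∉ T → u i ≤ b) →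
            b ≤ nth 0 u → Small (hZero Q e u) (hOne Q e u) (nth 0 u) b ∧
              Trade (hZero Q e u) (hOne Q e u) (nth 0 u) b) := by
  classical
  obtain ⟨r, rfl⟩ : ∃ r, s = r + 4 := ⟨s - 4, by omega⟩
  obtain ⟨h1, h2, h3⟩ := SH.curve_iff.1 hC
  have hge := SH.chi_le_dim P d w
  by_cases h0 : hOne P d w = 0
  · exact Or.inl h0
  right
  have hne : (hZero P d w : ℤ) ≠ chi d w := fun h => h0 (by unfold hOne; rw [h, sub_self])
  have hpos1 : 0 < hOne P d w := by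
    unfold hOne at h0 ⊢
    rw [hZero_eq, chi_eq] at h0 ⊢
    omega
  rcases Pool.Agent.K4H51.PTM.irr_red d P hP w C h1 h2 h3 with c1 | ⟨Q, e, u, C1, a1, a2, a3, a4,
    a5, a6, a7, a8, a9⟩
  · exact absurd (by rw [hZero_eq, chi_eq]; exact c1) hne
  · obtain ⟨q1, q2, q3⟩ := SH.quad_inv a5
    simp only at q1 q2 q3
    have hZ : hZero Q e u = hZero P d w := by rw [hZero_eq, hZero_eq, a9]
    have hX : chi e u = chi d w := by rw [chi_eq, chi_eq, q1]
    have hO : hOne Q e u = hOne P d w := by unfold hOne; rw [hZ, hX]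
    have hpos : 1 ≤ hZero P d w := by
      rw [hZero_eq]
      have hfin := W609.CR.vs_fin (fun j => W609.CR.aff (P j)) w d
      have hmem : C ∈ W609.CR.VS (fun j => W609.CR.aff (P j)) w d :=
        (SH.mem_VS _ _ _ _).2 ⟨h2, fun j => (h3 j).1⟩
      exact Module.finrank_pos_iff.2 ⟨⟨C, hmem⟩, 0, fun h7 => h1.ne_zero (congrArg Subtype.val h7)⟩
    have hg : hZero Q e u = gd u e := by
      rw [hZero_eq]
      exact Pool.Agent.K4H51.PTM.vs_gd a1 u e
    have hred : Red3 e u := Pool.Agent.K4H51.PTM.red3_of (by omega) a6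
    have key : ∀ (T : Finset (Fin (r + 4))) (b : ℕ), ∑ i ∈ T, u i ≤ 3 * e →
        (∀ i, i ∉ T → u i ≤ b) → b ≤ nth 0 u →
          Small (hZero Q e u) (hOne Q e u) (nth 0 u) b ∧
            Trade (hZero Q e u) (hOne Q e u) (nth 0 u) b := by
      intro T b hT hb hbA
      obtain ⟨y, hy, hTB⟩ := gd_trade_red (m := u) (d := e) hred hT (A := nth 0 u) (b := b)
        (fun j _ => Pool.Agent.K4H51.PTM.le_nth_zero u j) hb hbA
        (by rw [← hg, hZ]; exact hpos)
      have ey : hOne Q e u = (y : ℤ) := by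
        unfold hOne
        have h4 := SH.chi_cast e u
        rw [hg, chi_eq, h4]
        omega
      have hy0 : y ≠ 0 := by
        intro h4
        rw [h4, hO] at ey
        exact h0 (by rw [ey]; rfl)
      rw [← hg] at hTB
      rw [ey]
      exact of_TB hTB hy0 hbA
    have hsum9 : ∑ i ∈ Finset.univ.filter (fun i => nth 9 u < u i), u i ≤ 3 * e :=
      TT.red_sum a6 3 _ (Pool.Agent.K4H51.PTM.nth_spec 9 u)
    obtain ⟨b1, b2⟩ := key (Finset.univ.filter fun i => nth 9 u < u i) (nth 9 u) hsum9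
      (fun j hj => by
        by_contra hcon
        push Not at hcon
        exact hj (Finset.mem_filter.2 ⟨Finset.mem_univ _, hcon⟩))
      (Pool.Agent.K4H51.PTM.nth_anti (Nat.zero_le 9) u)
    have hBw : Small (hZero P d w) (hOne P d w) (nth 0 w) (nth 9 w) := by
      rw [← hZ, ← hO]
      exact b1.mono (Pool.Agent.K4H51.PTM.nth_mono 0 a8) (Pool.Agent.K4H51.PTM.nth_mono 9 a8)
    exact ⟨hpos1, hBw, Q, C1, e, u, a1, SH.curve_iff.2 ⟨a2, a3, a4⟩, SH.chain_conv a5, a6, a7, a8,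
      hZ, hO, b1, b2, key⟩

end Pool.Agent.Results.MP_0dccba_ag.PrimeTenthSuperabundance
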